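import Pool.Agent.H380.AG.Stm

set_option autoImplicit false
set_option linter.deprecated false

/-!
# Small ball bounds for two lines with the angle alpha (S_SB of project AG)

`x ∈ En k` in a shell, `s = ‖x‖`; `e₁` is the direction of `(1, x)`, `e₂` the rotation of `e₁` by `α` in
the plane of `(1, 0)` and `(0, x)`, the direction of `(1, F x)` with `F x = (κ s + 1) / ((κ - s) s) x`,
`κ = cot α`.
-/

open MeasureTheory Metric Set Filter Topology
open scoped ENNReal RealInnerProductSpace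

namespace Pool.Agent.H267.AG

open Pool.Agent.W778.AG Pool.Agent.H380.AG

/-- The vector `(a, v)`. -/
noncomputable def cn {k : ℕ} (a : ℝ) (v : En k) : En (k + 1) :=
  WithLp.toLp 2 (Fin.cons a (fun i => v i))

/-- The last `k` coordinates. -/
noncomputable def tl {k : ℕ} : En (k + 1) →L[ℝ] En k :=
  LinearMap.toContinuousLinearMap
    { toFun := fun w => WithLp.toLp 2 (fun i => w i.succ)
      map_add' := by intro x y; ext i; simp
      map_smul' := by intro c x; ext i; simp }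

lemma tl_apply {k : ℕ} (w : En (k + 1)) (i : Fin k) : tl w i = w i.succ := rfl

lemma cn_zero {k : ℕ} (a : ℝ) (v : En k) : cn a v 0 = a := rfl

lemma cn_succ {k : ℕ} (a : ℝ) (v : En k) (i : Fin k) : cn a v i.succ = v i := rfl

lemma norm_sq_split {k : ℕ} (w : En (k + 1)) : ‖w‖ ^ 2 = w 0 ^ 2 + ‖tl w‖ ^ 2 := by
  rw [EuclideanSpace.norm_sq_eq, EuclideanSpace.norm_sq_eq, Fin.sum_univ_succ]
  simp [tl_apply]

lemma norm_cn {k : ℕ} (a : ℝ) (v : En k) : ‖cn a v‖ ^ 2 = a ^ 2 + ‖v‖ ^ 2 := by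
  rw [norm_sq_split, cn_zero]
  congr 3

lemma inner_cn {k : ℕ} (a b : ℝ) (u v : En k) : ⟪cn a u, cn b v⟫ = a * b + ⟪u, v⟫ := by
  simp only [PiLp.inner_apply, Fin.sum_univ_succ, cn_zero, cn_succ]
  simp [mul_comm]

/-- The projection along `(1, y)`. -/
noncomputable def pj {k : ℕ} (y : En k) : En (k + 1) →L[ℝ] En k :=
  tl - (EuclideanSpace.proj (𝕜 := ℝ) (0 : Fin (k + 1))).smulRight y

lemma pj_apply {k : ℕ} (y : En k) (w : En (k + 1)) : pj y w = tl w - w 0 • y := rfl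

lemma pj_ker {k : ℕ} (y : En k) (w : En (k + 1)) (h : pj y w = 0) : w = w 0 • cn 1 y := by
  rw [pj_apply, sub_eq_zero] at h
  ext i
  refine Fin.cases ?_ (fun j => ?_) i
  · simp [cn_zero]
  · have h2 : tl w j = (w 0 • y) j := by rw [h]
    rw [tl_apply] at h2
    rw [h2]
    simp [cn_succ]

/-- The small ball bound. -/
lemma small_ball {k : ℕ} (X : Set (En k)) (hX : volume X ≠ ∞) (F : En k → En k)
    {R c : ℝ} (hc : 0 < c) (hR : 0 ≤ R) (hF : ∀ x ∈ X, ‖F x‖ ≤ R)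
    (hL : ∀ x ∈ X, ∀ y ∈ X, c * ‖x - y‖ ≤ ‖F x - F y‖) :
    ∃ C : ℝ, 0 < C ∧ ∀ w : En (k + 1), w ≠ 0 → ∀ δ : ℝ, 0 < δ →
      volume (X ∩ {o | ‖pj (F o) w‖ ≤ δ}) ≤ ENNReal.ofReal (C * (δ / ‖w‖) ^ k) := by
  set η : ℝ := 1 / (2 * (R + 1)) with hη
  have hη0 : 0 < η := by positivity
  have hηR : η * (R + 1) = 1 / 2 := by rw [hη]; field_simp
  set V : ℝ := (volume (ball (0 : En k) 1)).toReal with hV
  have hVe : volume (ball (0 : En k) 1) = ENNReal.ofReal V := by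
    rw [hV, ENNReal.ofReal_toReal]
    exact measure_ball_lt_top.ne
  have hV0 : 0 ≤ V := ENNReal.toReal_nonneg
  set W : ℝ := (volume X).toReal with hW
  have hWe : volume X = ENNReal.ofReal W := by
    rw [hW, ENNReal.ofReal_toReal hX]
  have hW0 : 0 ≤ W := ENNReal.toReal_nonneg
  refine ⟨V * (2 / (c * η)) ^ k + 2 ^ k * W + 1, by positivity, ?_⟩
  intro w hw δ hδ
  have hw0 : 0 < ‖w‖ := norm_pos_iff.2 hw
  set A := X ∩ {o | ‖pj (F o) w‖ ≤ δ} with hA
  have hpow : 0 ≤ (δ / ‖w‖) ^ k := by positivity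
  rcases A.eq_empty_or_nonempty with hAe | ⟨x, hx⟩
  · rw [hAe, measure_empty]; exact bot_le
  rcases le_or_gt (η * ‖w‖) |w 0| with hcase | hcase
  · -- the first coordinate is large
    have hw00 : 0 < |w 0| := lt_of_lt_of_le (by positivity) hcase
    have hsub : A ⊆ closedBall x (2 / (c * η) * (δ / ‖w‖)) := by
      intro y hy
      rw [mem_closedBall, dist_eq_norm]
      have h1 : ‖w 0 • (F y - F x)‖ ≤ 2 * δ := by
        have : w 0 • (F y - F x) = pj (F x) w - pj (F y) w := by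
          rw [pj_apply, pj_apply, smul_sub]
          abel
        rw [this]
        refine (norm_sub_le _ _).trans ?_
        have h2 := hx.2
        have h3 := hy.2
        simp only [mem_ofPred_eq] at h2 h3
        linarith
      rw [norm_smul, Real.norm_eq_abs] at h1
      have h2 := hL y hy.1 x hx.1
      have h3 : η * ‖w‖ * (c * ‖y - x‖) ≤ 2 * δ := by
        calc η * ‖w‖ * (c * ‖y - x‖) ≤ |w 0| * ‖F y - F x‖ := by
              apply mul_le_mul hcase h2 (by positivity) hw00.le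
          _ ≤ 2 * δ := h1
      have h4 : 2 / (c * η) * (δ / ‖w‖) = 2 * δ / (η * ‖w‖ * c) := by
        field_simp
      rw [h4, le_div_iff₀ (by positivity)]
      linarith
    refine (measure_mono hsub).trans ?_
    rw [Measure.addHaar_closedBall _ _ (by positivity), hVe,
      ← ENNReal.ofReal_mul (by positivity)]
    apply ENNReal.ofReal_le_ofReal
    rw [finrank_euclideanSpace, Fintype.card_fin, mul_pow]
    have h5 : 0 ≤ 2 ^ k * W * (δ / ‖w‖) ^ k := by positivity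
    nlinarith
  · -- the first coordinate is small
    have h1 : ‖w‖ ≤ 2 * δ := by
      have h2 : ‖tl w‖ ≤ δ + |w 0| * R := by
        have h3 : tl w = pj (F x) w + w 0 • F x := by
          rw [pj_apply]; abel
        rw [h3]
        refine (norm_add_le _ _).trans ?_
        rw [norm_smul, Real.norm_eq_abs]
        have h4 := hx.2
        simp only [mem_ofPred_eq] at h4
        have h5 : |w 0| * ‖F x‖ ≤ |w 0| * R := mul_le_mul_of_nonneg_left (hF x hx.1) (abs_nonneg _)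
        linarith
      have h3 : ‖w‖ ≤ |w 0| + ‖tl w‖ := by
        apply abs_le_of_sq_le_sq' _ (by positivity) |>.2
        rw [norm_sq_split, add_sq, sq_abs]
        have : 0 ≤ |w 0| * ‖tl w‖ := by positivity
        linarith
      have h4 : |w 0| * (R + 1) ≤ ‖w‖ / 2 := by
        calc |w 0| * (R + 1) ≤ η * ‖w‖ * (R + 1) := by gcongr
          _ = ‖w‖ / 2 := by rw [mul_right_comm, hηR]; ring
      linarith
    have h2 : (1 / 2 : ℝ) ^ k ≤ (δ / ‖w‖) ^ k := by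
      apply pow_le_pow_left₀ (by norm_num)
      rw [le_div_iff₀ hw0]
      linarith
    refine (measure_mono inter_subset_left).trans ?_
    rw [hWe]
    apply ENNReal.ofReal_le_ofReal
    have h3 : W ≤ 2 ^ k * W * (δ / ‖w‖) ^ k := by
      calc W = 2 ^ k * W * (1 / 2) ^ k := by
            rw [mul_right_comm, ← mul_pow]; norm_num
        _ ≤ _ := by gcongr
    have h4 : 0 ≤ V * (2 / (c * η)) ^ k * (δ / ‖w‖) ^ k := by positivity
    nlinarith

/-- The radial map. -/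
noncomputable def Fm {k : ℕ} (κ : ℝ) (x : En k) : En k := ((κ * ‖x‖ + 1) / ((κ - ‖x‖) * ‖x‖)) • x

lemma Fm_meas {k : ℕ} (κ : ℝ) : Measurable (Fm κ : En k → En k) := by
  unfold Fm
  fun_prop

lemma norm_Fm {k : ℕ} (κ : ℝ) (x : En k) (hx : 0 < ‖x‖) :
    ‖Fm κ x‖ = |κ * ‖x‖ + 1| / |κ - ‖x‖| := by
  rw [Fm, norm_smul, Real.norm_eq_abs, abs_div, abs_mul, abs_norm]
  field_simp

/-- Parameters of the shell. -/
lemma exists_par (κ : ℝ) : ∃ s₁ s₂ m : ℝ, 0 < s₁ ∧ s₁ < s₂ ∧ s₂ ≤ 1 ∧ |κ| * s₂ ≤ 1 / 2 ∧ 0 < m ∧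
    ((∀ s, s₁ < s → s < s₂ → m ≤ κ - s) ∨ (∀ s, s₁ < s → s < s₂ → m ≤ s - κ)) := by
  rcases le_or_gt κ 0 with h | h
  · refine ⟨1 / (4 * (|κ| + 1)), 1 / (2 * (|κ| + 1)), 1 / (4 * (|κ| + 1)), by positivity, ?_, ?_, ?_,
      by positivity, Or.inr ?_⟩
    · apply one_div_lt_one_div_of_lt (by positivity)
      have := abs_nonneg κ
      linarith
    · rw [div_le_one (by positivity)]
      have := abs_nonneg κ
      linarith
    · rw [mul_one_div, div_le_div_iff₀ (by positivity) (by norm_num)]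
      linarith
    · intro s hs _
      linarith
  · set s₂ := min (1 / (2 * (|κ| + 1))) (κ / 2) with hs₂
    have h2 : 0 < s₂ := lt_min (by positivity) (by positivity)
    have h3 : s₂ ≤ 1 / (2 * (|κ| + 1)) := min_le_left _ _
    have h4 : s₂ ≤ κ / 2 := min_le_right _ _
    refine ⟨s₂ / 2, s₂, κ / 2, by positivity, by linarith, ?_, ?_, by positivity, Or.inl ?_⟩
    · refine h3.trans ?_
      rw [div_le_one (by positivity)]
      have := abs_nonneg κ
      linarith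
    · refine (mul_le_mul_of_nonneg_left h3 (abs_nonneg κ)).trans ?_
      rw [mul_one_div, div_le_div_iff₀ (by positivity) (by norm_num)]
      linarith
    · intro s _ hs
      linarith

lemma Fm_sq {k : ℕ} (κ : ℝ) (x y : En k) (hx : 0 < ‖x‖) (hy : 0 < ‖y‖)
    (hκx : κ - ‖x‖ ≠ 0) (hκy : κ - ‖y‖ ≠ 0) :
    ‖Fm κ x - Fm κ y‖ ^ 2 = ((1 + κ ^ 2) * (‖x‖ - ‖y‖) / ((κ - ‖x‖) * (κ - ‖y‖))) ^ 2 +
      2 * (1 - ⟪x, y⟫ / (‖x‖ * ‖y‖)) *
        ((κ * ‖x‖ + 1) * (κ * ‖y‖ + 1) / ((κ - ‖x‖) * (κ - ‖y‖))) := by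
  rw [norm_sub_sq_real, Fm, Fm, norm_smul, norm_smul, real_inner_smul_left, real_inner_smul_right,
    mul_pow, mul_pow, Real.norm_eq_abs, Real.norm_eq_abs, sq_abs, sq_abs]
  field_simp
  ring

lemma nrm_sq {k : ℕ} (x y : En k) (hx : 0 < ‖x‖) (hy : 0 < ‖y‖) :
    ‖x - y‖ ^ 2 = (‖x‖ - ‖y‖) ^ 2 + 2 * (1 - ⟪x, y⟫ / (‖x‖ * ‖y‖)) * (‖x‖ * ‖y‖) := by
  rw [norm_sub_sq_real]
  field_simp
  ring

lemma Fm_lip {k : ℕ} (κ s₁ s₂ m : ℝ) (hs₁ : 0 < s₁) (hs₂ : s₂ ≤ 1)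
    (hκ : |κ| * s₂ ≤ 1 / 2) (hm : 0 < m)
    (hE : (∀ s, s₁ < s → s < s₂ → m ≤ κ - s) ∨ (∀ s, s₁ < s → s < s₂ → m ≤ s - κ))
    (x y : En k) (hx : s₁ < ‖x‖) (hx2 : ‖x‖ < s₂) (hy : s₁ < ‖y‖) (hy2 : ‖y‖ < s₂) :
    1 / (2 * (|κ| + 1) ^ 2) * ‖x - y‖ ≤ ‖Fm κ x - Fm κ y‖ := by
  have hx0 : 0 < ‖x‖ := hs₁.trans hx
  have hy0 : 0 < ‖y‖ := hs₁.trans hy
  set B := |κ| + 1 with hB
  have hB1 : 1 ≤ B := by rw [hB]; linarith [abs_nonneg κ]
  -- the denominators
  have hprod : 0 < (κ - ‖x‖) * (κ - ‖y‖) ∧ (κ - ‖x‖) * (κ - ‖y‖) ≤ B ^ 2 := by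
    have hax : |κ - ‖x‖| ≤ B := by
      refine (abs_sub _ _).trans ?_
      rw [abs_norm, hB]; linarith
    have hay : |κ - ‖y‖| ≤ B := by
      refine (abs_sub _ _).trans ?_
      rw [abs_norm, hB]; linarith
    constructor
    · rcases hE with h | h
      · have h1 := h _ hx hx2
        have h2 := h _ hy hy2
        exact mul_pos (by linarith) (by linarith)
      · have h1 := h _ hx hx2
        have h2 := h _ hy hy2
        exact mul_pos_of_neg_of_neg (by linarith) (by linarith)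
    · calc (κ - ‖x‖) * (κ - ‖y‖) ≤ |(κ - ‖x‖) * (κ - ‖y‖)| := le_abs_self _
        _ = |κ - ‖x‖| * |κ - ‖y‖| := abs_mul _ _
        _ ≤ B * B := by gcongr
        _ = B ^ 2 := by ring
  obtain ⟨hp0, hpB⟩ := hprod
  have hκx : κ - ‖x‖ ≠ 0 := fun h => by rw [h, zero_mul] at hp0; exact lt_irrefl _ hp0
  have hκy : κ - ‖y‖ ≠ 0 := fun h => by rw [h, mul_zero] at hp0; exact lt_irrefl _ hp0
  have hNx : 1 / 2 ≤ κ * ‖x‖ + 1 := by
    have h1 : |κ * ‖x‖| ≤ 1 / 2 := by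
      rw [abs_mul, abs_norm]
      exact (mul_le_mul_of_nonneg_left hx2.le (abs_nonneg _)).trans hκ
    linarith [neg_abs_le (κ * ‖x‖)]
  have hNy : 1 / 2 ≤ κ * ‖y‖ + 1 := by
    have h1 : |κ * ‖y‖| ≤ 1 / 2 := by
      rw [abs_mul, abs_norm]
      exact (mul_le_mul_of_nonneg_left hy2.le (abs_nonneg _)).trans hκ
    linarith [neg_abs_le (κ * ‖y‖)]
  have hq : 0 ≤ 1 - ⟪x, y⟫ / (‖x‖ * ‖y‖) := by
    rw [sub_nonneg, div_le_one (by positivity)]
    exact real_inner_le_norm x y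
  apply abs_le_of_sq_le_sq' _ (norm_nonneg _) |>.2
  rw [mul_pow, Fm_sq κ x y hx0 hy0 hκx hκy, nrm_sq x y hx0 hy0]
  set p := (κ - ‖x‖) * (κ - ‖y‖) with hp
  set q := 1 - ⟪x, y⟫ / (‖x‖ * ‖y‖) with hq'
  have h1 : (1 / (2 * B ^ 2)) ^ 2 * (‖x‖ - ‖y‖) ^ 2 ≤ ((1 + κ ^ 2) * (‖x‖ - ‖y‖) / p) ^ 2 := by
    rw [← mul_pow, mul_div_right_comm, mul_pow, mul_pow]
    apply mul_le_mul_of_nonneg_right _ (sq_nonneg _)
    apply pow_le_pow_left₀ (by positivity)
    rw [div_le_div_iff₀ (by positivity) hp0]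
    have : 0 ≤ κ ^ 2 := sq_nonneg _
    have hB2 : 0 < B ^ 2 := by positivity
    nlinarith
  have h2 : (1 / (2 * B ^ 2)) ^ 2 * (‖x‖ * ‖y‖) ≤ (κ * ‖x‖ + 1) * (κ * ‖y‖ + 1) / p := by
    have h3 : ‖x‖ * ‖y‖ ≤ 1 := by
      have : ‖x‖ ≤ 1 := by linarith
      have : ‖y‖ ≤ 1 := by linarith
      nlinarith
    have h4 : 1 / 4 ≤ (κ * ‖x‖ + 1) * (κ * ‖y‖ + 1) := by nlinarith
    calc (1 / (2 * B ^ 2)) ^ 2 * (‖x‖ * ‖y‖) ≤ (1 / (2 * B ^ 2)) ^ 2 * 1 := by gcongr
      _ = (1 / 4) / (B ^ 2 * B ^ 2) := by rw [mul_one, div_pow]; field_simp; ring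
      _ ≤ (1 / 4) / (B ^ 2 * 1) := by
          apply div_le_div_of_nonneg_left (by norm_num) (by positivity)
          apply mul_le_mul_of_nonneg_left _ (by positivity)
          exact one_le_pow₀ hB1
      _ = (1 / 4) / B ^ 2 := by rw [mul_one]
      _ ≤ (1 / 4) / p := div_le_div_of_nonneg_left (by norm_num) hp0 hpB
      _ ≤ _ := by gcongr
  have h5 : q * ((1 / (2 * B ^ 2)) ^ 2 * (‖x‖ * ‖y‖)) ≤
      q * ((κ * ‖x‖ + 1) * (κ * ‖y‖ + 1) / p) := mul_le_mul_of_nonneg_left h2 hq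
  linarith

lemma pj_meas {k : ℕ} (F : En k → En k) (hF : Measurable F) :
    Measurable (fun z : En k × En (k + 1) => pj (F z.1) z.2) := by
  have h1 : Measurable (fun z : En k × En (k + 1) => tl z.2) :=
    tl.continuous.measurable.comp measurable_snd
  have h2 : Measurable (fun z : En k × En (k + 1) => z.2 0) :=
    (EuclideanSpace.proj (𝕜 := ℝ) (0 : Fin (k + 1))).continuous.measurable.comp measurable_snd
  have h3 : Measurable (fun z : En k × En (k + 1) => F z.1) := hF.comp measurable_fst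
  exact h1.sub (h2.smul h3)

lemma pj_meas2 {k : ℕ} (F : En k → En k) (hF : Measurable F) (w : En (k + 1)) :
    Measurable (fun o : En k => pj (F o) w) := by
  have h3 : Measurable (fun o : En k => w 0 • F o) := hF.const_smul (w 0)
  exact measurable_const.sub h3

/-- The pointwise properties of the two directions. -/
lemma pointwise {k : ℕ} (α κ : ℝ) (hsin : 0 < Real.sin α) (hκ : κ * Real.sin α = Real.cos α)
    (x : En k) (hx0 : 0 < ‖x‖) (hne : κ - ‖x‖ ≠ 0) :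
    ‖(Real.sqrt (1 + ‖x‖ ^ 2))⁻¹ • cn 1 x‖ = 1 ∧
    ‖(Real.sqrt (1 + ‖x‖ ^ 2))⁻¹ • cn (Real.cos α - ‖x‖ * Real.sin α)
      ((Real.cos α + Real.sin α / ‖x‖) • x)‖ = 1 ∧
    ⟪(Real.sqrt (1 + ‖x‖ ^ 2))⁻¹ • cn 1 x, (Real.sqrt (1 + ‖x‖ ^ 2))⁻¹ •
      cn (Real.cos α - ‖x‖ * Real.sin α) ((Real.cos α + Real.sin α / ‖x‖) • x)⟫ = Real.cos α ∧
    (∀ w, pj x w = 0 → ∃ c : ℝ, w = c • ((Real.sqrt (1 + ‖x‖ ^ 2))⁻¹ • cn 1 x)) ∧
    ∀ w, pj (Fm κ x) w = 0 → ∃ c : ℝ, w = c • ((Real.sqrt (1 + ‖x‖ ^ 2))⁻¹ •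
      cn (Real.cos α - ‖x‖ * Real.sin α) ((Real.cos α + Real.sin α / ‖x‖) • x)) := by
  set s := ‖x‖ with hs
  have hD : 0 < 1 + s ^ 2 := by positivity
  have hsq : 0 < Real.sqrt (1 + s ^ 2) := Real.sqrt_pos.2 hD
  have hsq2 : Real.sqrt (1 + s ^ 2) ^ 2 = 1 + s ^ 2 := Real.sq_sqrt hD.le
  have hcs : Real.sin α ^ 2 + Real.cos α ^ 2 = 1 := Real.sin_sq_add_cos_sq α
  refine ⟨?_, ?_, ?_, ?_, ?_⟩
  · have h1 : ‖(Real.sqrt (1 + s ^ 2))⁻¹ • cn 1 x‖ ^ 2 = 1 := by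
      rw [norm_smul, mul_pow, norm_cn, Real.norm_eq_abs, sq_abs, inv_pow, hsq2, ← hs, one_pow]
      exact inv_mul_cancel₀ hD.ne'
    exact (pow_eq_one_iff_of_nonneg (norm_nonneg _) two_ne_zero).1 h1
  · have h1 : ‖(Real.sqrt (1 + s ^ 2))⁻¹ • cn (Real.cos α - s * Real.sin α)
        ((Real.cos α + Real.sin α / s) • x)‖ ^ 2 = 1 := by
      rw [norm_smul, mul_pow, norm_cn, norm_smul, mul_pow, Real.norm_eq_abs, Real.norm_eq_abs, sq_abs,
        sq_abs, inv_pow, hsq2, ← hs]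
      field_simp
      linear_combination (s ^ 2 + 1) * hcs
    exact (pow_eq_one_iff_of_nonneg (norm_nonneg _) two_ne_zero).1 h1
  · rw [real_inner_smul_left, real_inner_smul_right, inner_cn, real_inner_smul_right,
      real_inner_self_eq_norm_sq, ← hs, ← mul_assoc, ← sq, inv_pow, hsq2]
    field_simp
    ring
  · intro w hw
    refine ⟨w 0 * Real.sqrt (1 + s ^ 2), ?_⟩
    rw [smul_smul, mul_assoc, mul_inv_cancel₀ hsq.ne', mul_one]
    exact pj_ker x w hw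
  · intro w hw
    have h1 := pj_ker (Fm κ x) w hw
    have h2 : cn (Real.cos α - s * Real.sin α) ((Real.cos α + Real.sin α / s) • x) =
        (Real.sin α * (κ - s)) • cn 1 (Fm κ x) := by
      ext i
      refine Fin.cases ?_ (fun j => ?_) i
      · simp only [cn_zero, PiLp.smul_apply, smul_eq_mul, mul_one]
        linear_combination - hκ
      · simp only [cn_succ, PiLp.smul_apply, smul_eq_mul, Fm, ← hs]
        rw [← hκ]
        field_simp
    refine ⟨w 0 * Real.sqrt (1 + s ^ 2) * (Real.sin α * (κ - s))⁻¹, ?_⟩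
    rw [h2, smul_smul, smul_smul]
    have h3 : w 0 * Real.sqrt (1 + s ^ 2) * (Real.sin α * (κ - s))⁻¹ *
        (Real.sqrt (1 + s ^ 2))⁻¹ * (Real.sin α * (κ - s)) = w 0 := by
      have := hsin.ne'
      field_simp
    rw [h3]
    exact h1

theorem t_SB : S_SB := by
  intro k α hk hα0 hαπ
  have hsin : 0 < Real.sin α := Real.sin_pos_of_pos_of_lt_pi hα0 hαπ
  obtain ⟨κ, hκ⟩ : ∃ κ : ℝ, κ * Real.sin α = Real.cos α :=
    ⟨Real.cos α / Real.sin α, div_mul_cancel₀ _ hsin.ne'⟩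
  obtain ⟨s₁, s₂, m, hs₁, hs12, hs₂, hκs, hm, hE⟩ := exists_par κ
  set X : Set (En k) := {x | s₁ < ‖x‖ ∧ ‖x‖ < s₂} with hXdef
  have hXo : IsOpen X := by
    apply IsOpen.inter
    · exact isOpen_lt continuous_const continuous_norm
    · exact isOpen_lt continuous_norm continuous_const
  have hXfin : volume X ≠ ∞ := by
    refine ((measure_mono (t := closedBall (0 : En k) s₂) ?_).trans_lt
      measure_closedBall_lt_top).ne
    intro x hx
    rw [mem_closedBall, dist_zero_right]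
    exact hx.2.le
  have hXne : X.Nonempty := by
    refine ⟨EuclideanSpace.single (⟨0, hk⟩ : Fin k) ((s₁ + s₂) / 2), ?_⟩
    have h1 : ‖(EuclideanSpace.single (⟨0, hk⟩ : Fin k) ((s₁ + s₂) / 2) : En k)‖ = (s₁ + s₂) / 2 := by
      rw [EuclideanSpace.norm_single, Real.norm_eq_abs, abs_of_pos (by linarith)]
    constructor
    · rw [h1]; linarith
    · rw [h1]; linarith
  have hbd : ∀ s, s₁ < s → s < s₂ → m ≤ |κ - s| := by
    intro s h1 h2
    rcases hE with h | h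
    · exact (h s h1 h2).trans (le_abs_self _)
    · have := h s h1 h2
      rw [abs_sub_comm]
      exact this.trans (le_abs_self _)
  have hFb : ∀ x ∈ X, ‖Fm κ x‖ ≤ 3 / 2 / m := by
    intro x hx
    rw [norm_Fm κ x (hs₁.trans hx.1)]
    have h1 := hbd _ hx.1 hx.2
    have h2 : |κ * ‖x‖ + 1| ≤ 3 / 2 := by
      refine (abs_add_le _ _).trans ?_
      rw [abs_mul, abs_norm, abs_one]
      have := mul_le_mul_of_nonneg_left hx.2.le (abs_nonneg κ)
      linarith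
    exact div_le_div₀ (by norm_num) h2 hm h1
  obtain ⟨C₁, hC₁, hb₁⟩ := small_ball X hXfin (fun x => x) (R := 1) (c := 1) one_pos zero_le_one
    (fun x hx => hx.2.le.trans hs₂) (fun x _ y _ => by rw [one_mul])
  obtain ⟨C₂, hC₂, hb₂⟩ := small_ball X hXfin (Fm κ) (R := 3 / 2 / m)
    (c := 1 / (2 * (|κ| + 1) ^ 2)) (by positivity) (by positivity) hFb
    (fun x hx y hy => Fm_lip κ s₁ s₂ m hs₁ hs₂ hκs hm hE x y hx.1 hx.2 hy.1 hy.2)
  refine ⟨volume.restrict X, fun x => (Real.sqrt (1 + ‖x‖ ^ 2))⁻¹ • cn 1 x,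
    fun x => (Real.sqrt (1 + ‖x‖ ^ 2))⁻¹ • cn (Real.cos α - ‖x‖ * Real.sin α)
      ((Real.cos α + Real.sin α / ‖x‖) • x), fun x => pj x, fun x => pj (Fm κ x), C₁ + C₂, ?_,
    inferInstance, add_pos hC₁ hC₂, pj_meas (fun x => x) measurable_id, pj_meas (Fm κ) (Fm_meas κ),
    ?_, ?_⟩
  · rw [Ne, Measure.restrict_eq_zero]
    exact (hXo.measure_pos volume hXne).ne'
  · filter_upwards [ae_restrict_mem hXo.measurableSet] with x hx
    have hx0 : 0 < ‖x‖ := hs₁.trans hx.1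
    have hne : κ - ‖x‖ ≠ 0 := by
      intro h
      have := hbd ‖x‖ hx.1 hx.2
      rw [h, abs_zero] at this
      linarith
    exact pointwise α κ hsin hκ x hx0 hne
  · intro w hw δ hδ
    have hm1 : MeasurableSet {o : En k | ‖pj o w‖ ≤ δ} := by
      exact measurableSet_le (pj_meas2 (fun x => x) measurable_id w).norm measurable_const
    have hm2 : MeasurableSet {o : En k | ‖pj (Fm κ o) w‖ ≤ δ} := by
      exact measurableSet_le (pj_meas2 (Fm κ) (Fm_meas κ) w).norm measurable_const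
    have hpow : 0 ≤ (δ / ‖w‖) ^ k := by positivity
    constructor
    · rw [Measure.restrict_apply hm1, inter_comm]
      refine (hb₁ w hw δ hδ).trans (ENNReal.ofReal_le_ofReal ?_)
      apply mul_le_mul_of_nonneg_right _ hpow
      linarith
    · rw [Measure.restrict_apply hm2, inter_comm]
      refine (hb₂ w hw δ hδ).trans (ENNReal.ofReal_le_ofReal ?_)
      apply mul_le_mul_of_nonneg_right _ hpow
      linarith

end Pool.Agent.H267.AG
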